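import Pool.Agent.GraphProd.Degenerate

set_option autoImplicit false

/-!
# When the electrification of a graph product is a quasi-line (MP_7fb950_al, Q1)

Definitions used in the statement are in `Pool/Agent/GraphProd/Defs.lean`.
-/

namespace Pool.Agent.Results.MP_7fb950_al.QuasiLine

open Pool.Agent.GraphProd

/-- **Answer to Q1.** For a finite graph `Γ` and non-trivial finite vertex groups, the
electrification is a quasi-line if and only if the graph product is infinite and virtually cyclic,
if and only if `Γ` is a complete graph minus exactly one edge `{u, v}`, with `G_u` and `G_v` of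
order two. The second part shows that non-triviality of the vertex groups (the convention of the
field) is needed: with trivial groups at two opposite vertices of a square the graph product can be
infinite and virtually cyclic while the electrification is not a quasi-line. -/
theorem result.{u, v} :
    (∀ (V : Type u) [Finite V] (Γ : SimpleGraph V) (G : V → Type v) [∀ x, Group (G x)]
      [∀ x, Finite (G x)] [∀ x, Nontrivial (G x)],
      (IsQuasiLine (electrification Γ G) ↔
        Infinite (GraphProduct Γ G) ∧ VirtuallyCyclic (GraphProduct Γ G)) ∧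
      (IsQuasiLine (electrification Γ G) ↔
        ∃ a b : V, a ≠ b ∧ Nat.card (G a) = 2 ∧ Nat.card (G b) = 2 ∧
          ∀ x y, Γ.Adj x y ↔ x ≠ y ∧ ¬ (x = a ∧ y = b) ∧ ¬ (x = b ∧ y = a))) ∧
    ∃ (Γ : SimpleGraph (Fin 4)) (G : Fin 4 → Type) (_ : ∀ x, Group (G x)),
      (∀ x, Finite (G x)) ∧ Infinite (GraphProduct Γ G) ∧ VirtuallyCyclic (GraphProduct Γ G) ∧
        ¬ IsQuasiLine (electrification Γ G) := by
  refine ⟨?_, sq, Gd, inferInstance, finite_Gd, infinite_sq, vc_sq, not_isQuasiLine_sq⟩
  intro V _ Γ G _ _ _
  classical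
  have := Fintype.ofFinite V
  refine ⟨⟨fun h => ?_, fun h => ?_⟩, ⟨exceptional_of_isQuasiLine, ?_⟩⟩
  · obtain ⟨a, b, hab, ha, hb, hadj⟩ := exceptional_of_isQuasiLine h
    obtain ⟨D⟩ := exists_lineData hab ha hb hadj
    exact ⟨D.infinite, D.virtuallyCyclic⟩
  · obtain ⟨a, b, hab, ha, hb, hadj⟩ := exceptional_of_virtuallyCyclic h.1 h.2
    obtain ⟨D⟩ := exists_lineData hab ha hb hadj
    exact D.isQuasiLine
  · rintro ⟨a, b, hab, ha, hb, hadj⟩
    obtain ⟨D⟩ := exists_lineData hab ha hb hadj
    exact D.isQuasiLine

end Pool.Agent.Results.MP_7fb950_al.QuasiLine
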